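import Pool.Agent.K.MP_158ebf_lc.C9

namespace Pool.Agent.Results.MP_435dae_lc.OptimalOutsideNP

open Pool.Agent.P.MP_435dae_lc.Opt

/-- Relative to every oracle, some language outside `NP` has an optimal proof system, with proofs
of length `n ^ O(log log n)`. -/
theorem result : ∀ O : List Bool → Bool, ∃ (L : List Bool → Bool) (f : List Bool → List Bool),
    L ∉ NPIn O ∧ PolyOptimalIn O f L ∧
    ∃ c : ℕ, ∀ x, L x = true → ∃ w, f w = x ∧
      w.length ≤ (x.length + 2) ^ (c * (Nat.log 2 (Nat.log 2 x.length) + 1)) :=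
  main

end Pool.Agent.Results.MP_435dae_lc.OptimalOutsideNP
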