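import Pool.Agent.K.MP_158ebf_lc.C10

namespace Pool.Agent.Results.MP_435dae_lc.RandomOracle

open Pool.Agent.P.MP_435dae_lc

/-- Relative to a random oracle, no language that is many-one hard for `coNP` has an optimal proof
system, even when proofs may grow by a factor exponential in their length. -/
theorem result : ∀ᵐ O ∂coin, ∀ L f, CoNPHardIn O L → ¬OptimalIn O f L :=
  ae_no_optimal

end Pool.Agent.Results.MP_435dae_lc.RandomOracle
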